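import Pool.Agent.Helper37.OPLower
import Pool.Agent.Helper37.OPDraw

/-!
# Exponential area for upward straight-line drawings of directed outerplanar graphs

The quantity `A n` of the problem is defined in `Pool.Agent.Helper37.OPDefs`:
`A n` is the maximum, over all `n`-vertex directed outerplanar graphs that have an upward
straight-line grid drawing, of the minimum area of such a drawing (vertices need not be on the
outer face of the drawing).

We prove `A n ≥ 2 ^ (n / 8 - 4)` for all `n ≥ 16`. Together with the known bound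
`A n ≤ 2 ^ O(n)` this shows `A n = 2 ^ Θ(n)`.
-/

namespace Pool.Agent.Results.MP_5a9264_co.ExpArea

open Pool.Agent.Helper37.OP

theorem minArea_lower {n : ℕ} (hn : 16 ≤ n) : (4 : ℤ) ^ (n / 16 - 1) ≤ minArea (arcFin n) := by
  unfold minArea
  apply le_csInf
  · exact ⟨_, posFin n, posFin_drawing n, rfl⟩
  · rintro a ⟨p, hp, rfl⟩
    exact area_lower hp hn

theorem A_lower {n : ℕ} (hn : 16 ≤ n) : (4 : ℤ) ^ (n / 16 - 1) ≤ A n := by
  refine (minArea_lower hn).trans ?_
  unfold A
  apply le_csSup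
  · apply Set.Finite.bddAbove
    refine (Set.finite_range (minArea : (Fin n → Fin n → Prop) → ℤ)).subset ?_
    rintro a ⟨E, -, -, rfl⟩
    exact ⟨E, rfl⟩
  · exact ⟨arcFin n, arcFin_directedOuterplanar n, ⟨posFin n, posFin_drawing n⟩, rfl⟩

/-- **Main theorem.** There are `n`-vertex directed outerplanar graphs, drawable upward in the
plane, all of whose upward straight-line grid drawings (outerplanar or not) have area at least
`2 ^ (n / 8 - 4)`; that is, `A n ≥ 2 ^ (n / 8 - 4)` for every `n ≥ 16`. -/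
theorem result : ∀ n : ℕ, 16 ≤ n → (2 : ℝ) ^ ((n : ℝ) / 8 - 4) ≤ (A n : ℝ) := by
  intro n hn
  have h1 : ((4 : ℤ) ^ (n / 16 - 1) : ℤ) ≤ A n := A_lower hn
  have h2 : ((4 : ℝ) ^ (n / 16 - 1)) ≤ (A n : ℝ) := by exact_mod_cast h1
  refine le_trans ?_ h2
  have h3 : (4 : ℝ) ^ (n / 16 - 1) = (2 : ℝ) ^ (2 * ((n / 16 - 1 : ℕ) : ℝ)) := by
    rw [Real.rpow_mul (by norm_num), Real.rpow_natCast]
    norm_num
  rw [h3]
  apply Real.rpow_le_rpow_of_exponent_le (by norm_num)
  have h4 : (n : ℝ) ≤ 16 * ((n / 16 - 1 : ℕ) : ℝ) + 31 := by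
    have : n ≤ 16 * (n / 16 - 1) + 31 := by omega
    exact_mod_cast this
  linarith

end Pool.Agent.Results.MP_5a9264_co.ExpArea
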